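import Pool.Agent.H914R2.StdDefs

/-!
# One Kunneth component of a power: definitions
-/

open CategoryTheory AlgebraicGeometry

set_option autoImplicit false

universe u v

namespace Pool.Agent.N103.OC

open Pool.Agent.H914 VarClass Obj WeilCohomology

variable {k : Type u} [Field k] {𝒱 : VarClass k} {ops : CycleOps 𝒱}

/-- The power `X ^ n`, `n ≥ 1`. -/
noncomputable def pw (X : 𝒱.Obj) : ℕ → 𝒱.Obj
  | 0 => X
  | 1 => X
  | n + 2 => (pw X (n + 1)).prod X

/-- For all `s ≤ dim X` there are cycles on `X` of codimension `s` and `dim X - s` with a nonzero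
intersection number; for instance the powers of an ample divisor if `X` is projective. -/
def DualCycles (ops : CycleOps 𝒱) (X : 𝒱.Obj) : Prop :=
  ∀ s ≤ X.dim, ∃ a b : X.Cycles, X.IsCyc s a ∧ X.IsCyc (X.dim - s) b ∧
    X.V.degCycle (ops.mul b a) ≠ 0

/-- The `i`-th Kunneth component of the diagonal of `X` is the class of a cycle with rational
coefficients: some cycle of codimension `dim X` on `X × X` acts as the identity on `H^i(X)` and as
zero on `H^j(X)` for `j ≠ i`. -/
def RationalComponent (W : WeilCohomology.{u, v} ops) (X : 𝒱.Obj) (i : ℕ) : Prop :=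
  ∃ z, (X.prod X).IsCyc X.dim z ∧ InducesProjector W X i z

/-- Some linear combination of the operators `φ z`, for `z` with the property `p`, is the projector
onto the `i`-th piece of the grading `g`. -/
def CombinationIsProjector {K : Type*} {V : Type*} {C : Type*} [Field K] [AddCommGroup V]
    [Module K V] (g : ℕ → Submodule K V) (i : ℕ) (p : C → Prop) (φ : C → V →ₗ[K] V) : Prop :=
  ∃ P ∈ Submodule.span K {ψ : V →ₗ[K] V | ∃ z, p z ∧ φ z = ψ}, IsProjector g i P

/-- The `i`-th Kunneth component of the diagonal of `X` is a linear combination of classes of cycles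
with coefficients in the coefficient field `K` of the cohomology theory. -/
def SpanComponent (W : WeilCohomology.{u, v} ops) (X : 𝒱.Obj) (i : ℕ) : Prop :=
  CombinationIsProjector (W.gr X) i ((X.prod X).IsCyc X.dim)
    fun z => W.corr (W.cl (X.prod X) z)

/-- All Kunneth components of the diagonal of `X` are classes of rational cycles. -/
def AllRational (W : WeilCohomology.{u, v} ops) (X : 𝒱.Obj) : Prop :=
  ∀ i, RationalComponent W X i

/-- All Kunneth components of the diagonal of `X` are combinations of classes of cycles with
coefficients in `K`. -/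
def AllSpan (W : WeilCohomology.{u, v} ops) (X : 𝒱.Obj) : Prop := ∀ i, SpanComponent W X i

/-- For arbitrarily large `n` the middle Kunneth component is the class of a rational cycle for all
varieties `V` of dimension `n`. -/
def MiddleRational (W : WeilCohomology.{u, v} ops) : Prop :=
  ∀ n₀, ∃ n ≥ n₀, ∀ V : 𝒱.Obj, V.dim = n → RationalComponent W V n

/-- For arbitrarily large `n` the middle Kunneth component is a combination of classes of cycles
with coefficients in `K` for all varieties `V` of dimension `n`. -/
def MiddleSpan (W : WeilCohomology.{u, v} ops) : Prop :=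
  ∀ n₀, ∃ n ≥ n₀, ∀ V : 𝒱.Obj, V.dim = n → SpanComponent W V n

/-- `X` has cohomology in some odd degree. -/
def HasOdd (W : WeilCohomology.{u, v} ops) (X : 𝒱.Obj) : Prop := ∃ j, Odd j ∧ W.gr X j ≠ ⊥

end Pool.Agent.N103.OC
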