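import Pool.Agent.N190.CB.Tr
import Pool.Agent.H914R2.GConv

/-!
# Contraction of diagonal operators on the cohomology of a product
-/

set_option autoImplicit false

open CategoryTheory AlgebraicGeometry Finset TensorProduct

universe u v

namespace Pool.Agent.N103.OC

open Pool.Agent.H914 VarClass Obj WeilCohomology Pool.Agent.N190.CB

section lin

variable {K V : Type*} [Field K] [AddCommGroup V] [Module K V] [Module.Finite K V]

/-- The trace form is nondegenerate. -/
lemma eq_zero_of_trace {G : Module.End K V} (h : ∀ F, LinearMap.trace K V (G * F) = 0) : G = 0 := by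
  apply LinearMap.ext
  intro v
  rw [LinearMap.zero_apply]
  by_contra hv
  obtain ⟨l, hl⟩ : ∃ l : Module.Dual K V, l (G v) ≠ 0 := by
    by_contra hcon
    push Not at hcon
    exact hv ((Module.forall_dual_apply_eq_zero_iff K _).1 hcon)
  apply hl
  have h1 := h (dualTensorHom K V V (l ⊗ₜ v))
  have h2 : G * dualTensorHom K V V (l ⊗ₜ v) = dualTensorHom K V V (l ⊗ₜ G v) := by
    apply LinearMap.ext
    intro x
    rw [Module.End.mul_apply, dualTensorHom_apply, dualTensorHom_apply, map_smul]
  rw [h2, LinearMap.trace_eq_contract_apply, contractLeft_apply] at h1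
  exact h1

end lin

variable {k : Type u} [Field k] {𝒱 : VarClass k} {ops : CycleOps 𝒱}
  {W : WeilCohomology.{u, v} ops} {X Y Z : 𝒱.Obj}

/-- The trace of an external product of operators. -/
lemma trace_extOp (φ : Module.End W.K (W.H X)) (ψ : Module.End W.K (W.H Z)) :
    LinearMap.trace W.K (W.H (X.prod Z)) (extOp W φ ψ) =
      LinearMap.trace W.K (W.H X) φ * LinearMap.trace W.K (W.H Z) ψ := by
  have h1 : extOp W φ ψ = (kappa W X Z).conj (TensorProduct.map φ ψ) := rfl
  rw [h1, LinearMap.trace_conj', LinearMap.trace_tensorProduct']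

/-- A diagonal operator on a product. -/
lemma scal_apply_ext (c : ℕ → W.K) {i j : ℕ} {a : W.H X} (ha : a ∈ W.gr X i) {b : W.H Z}
    (hb : b ∈ W.gr Z j) :
    scal (W.isInternal (X.prod Z)) c (W.map (fst X Z) a * W.map (snd X Z) b) =
      c (i + j) • (W.map (fst X Z) a * W.map (snd X Z) b) :=
  scal_apply _ c (W.mul_mem (W.map_mem _ ha) (W.map_mem _ hb))

lemma op_ext {F G : Module.End W.K (W.H (X.prod Z))}
    (h : ∀ i j, ∀ a ∈ W.gr X i, ∀ b ∈ W.gr Z j,
      F (W.map (fst X Z) a * W.map (snd X Z) b) = G (W.map (fst X Z) a * W.map (snd X Z) b)) :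
    F = G := by
  apply LinearMap.ext
  intro x
  refine W.kunneth_induction (p := fun x => F x = G x) ?_ ?_ x
  · intro a b ha hb
    rw [map_add, map_add, ha, hb]
  · exact h

lemma par_prod : par (W.isInternal (X.prod Z)) =
    extOp W (par (W.isInternal X)) (par (W.isInternal Z)) := by
  apply op_ext
  intro i j a ha b hb
  rw [par, scal_apply_ext _ ha hb, extOp_tmul, par, par, scal_apply _ _ ha, scal_apply _ _ hb,
    map_smul, map_smul, smul_mul_assoc, mul_smul_comm, smul_smul, pow_add]

/-- The supertrace of an external product. -/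
lemma str_ext' (φ : Module.End W.K (W.H X)) (ψ : Module.End W.K (W.H Z)) :
    str W (X.prod Z) (extOp W φ ψ) = str W X φ * str W Z ψ := by
  rw [str_apply, par_prod, extOp_mul, trace_extOp, str_apply, str_apply]

/-- A diagonal operator on a product as a combination of the projectors. -/
lemma scal_prod (c : ℕ → W.K) : scal (W.isInternal (X.prod Z)) c =
    ∑ i ∈ range (2 * X.dim + 1), ∑ j ∈ range (2 * Z.dim + 1),
      c (i + j) • extOp W (proj (W.isInternal X) i) (proj (W.isInternal Z) j) := by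
  apply op_ext
  intro i j a ha b hb
  rw [scal_apply_ext c ha hb]
  by_cases hi : i ∈ range (2 * X.dim + 1)
  · by_cases hj : j ∈ range (2 * Z.dim + 1)
    · rw [LinearMap.sum_apply, Finset.sum_eq_single_of_mem i hi, LinearMap.sum_apply,
        Finset.sum_eq_single_of_mem j hj, LinearMap.smul_apply, extOp_tmul, proj_same _ ha,
        proj_same _ hb]
      · intro j' _ hj'
        rw [LinearMap.smul_apply, extOp_tmul, proj_ne _ hb (Ne.symm hj'), map_zero, mul_zero,
          smul_zero]
      · intro i' _ hi'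
        rw [LinearMap.sum_apply]
        apply Finset.sum_eq_zero
        intro j' _
        rw [LinearMap.smul_apply, extOp_tmul, proj_ne _ ha (Ne.symm hi'), map_zero, zero_mul,
          smul_zero]
    · rw [mem_range] at hj
      rw [W_hbd (X := Z) j (by omega), Submodule.mem_bot] at hb
      rw [hb, map_zero, mul_zero, smul_zero, map_zero]
  · rw [mem_range] at hi
    rw [W_hbd (X := X) i (by omega), Submodule.mem_bot] at ha
    rw [ha, map_zero, zero_mul, smul_zero, map_zero]

/-- The diagonal operator on the first factor obtained by contraction. -/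
noncomputable def ctr (ψ : Module.End W.K (W.H Z)) (c : ℕ → W.K) (i : ℕ) : W.K :=
  ∑ j ∈ range (2 * Z.dim + 1), c (i + j) * str W Z (proj (W.isInternal Z) j * ψ)

lemma str_scal (c : ℕ → W.K) (φ : Module.End W.K (W.H X)) (ψ : Module.End W.K (W.H Z)) :
    str W (X.prod Z) (scal (W.isInternal (X.prod Z)) c * extOp W φ ψ) =
      str W X (scal (W.isInternal X) (ctr ψ c) * φ) := by
  rw [scal_prod, Finset.sum_mul, map_sum, scal_eq_sum (W.isInternal X) W_hbd (ctr ψ c),
    Finset.sum_mul, map_sum]
  refine Finset.sum_congr rfl fun i _ => ?_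
  rw [Finset.sum_mul, map_sum, smul_mul_assoc, map_smul, smul_eq_mul, ctr, Finset.sum_mul]
  refine Finset.sum_congr rfl fun j _ => ?_
  rw [smul_mul_assoc, map_smul, extOp_mul, str_ext', smul_eq_mul]
  ring

lemma eq_of_str {T T' : Module.End W.K (W.H X)}
    (h : ∀ f : W.H (X.prod X), str W X (T * W.corr f) = str W X (T' * W.corr f)) : T = T' := by
  have h1 : par (W.isInternal X) * (T - T') = 0 := by
    apply eq_zero_of_trace
    intro F
    obtain ⟨f, hf⟩ := corr_bijective.2 F
    have hf' : W.corr f = F := hf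
    have h2 := h f
    rw [str_apply, str_apply, ← mul_assoc, ← mul_assoc] at h2
    rw [mul_sub, sub_mul, map_sub, ← hf', h2, sub_self]
  have h2 := congrArg (fun A => par (W.isInternal X) * A) h1
  simp only [mul_zero, ← mul_assoc, par_mul_par, one_mul] at h2
  exact sub_eq_zero.1 h2

/-- A class of operators containing the operators induced by the cycles of the product varieties,
closed under the algebraic constructions. -/
structure OpClass (W : WeilCohomology.{u, v} ops) (Op : ∀ X : 𝒱.Obj, Set (Module.End W.K (W.H X))) :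
    Prop where
  one : ∀ X, 1 ∈ Op X
  add : ∀ {X : 𝒱.Obj} {y z : Module.End W.K (W.H X)}, y ∈ Op X → z ∈ Op X → y + z ∈ Op X
  smul : ∀ {X : 𝒱.Obj} (q : ℚ) {y : Module.End W.K (W.H X)}, y ∈ Op X → (q : W.K) • y ∈ Op X
  mul : ∀ {X : 𝒱.Obj} {y z : Module.End W.K (W.H X)}, y ∈ Op X → z ∈ Op X → y * z ∈ Op X
  ext : ∀ {Y Z : 𝒱.Obj} {φ : Module.End W.K (W.H Y)} {ψ : Module.End W.K (W.H Z)},
    φ ∈ Op Y → ψ ∈ Op Z → extOp W φ ψ ∈ Op (Y.prod Z)
  contr : ∀ {X Z : 𝒱.Obj} {A : Module.End W.K (W.H (X.prod Z))} {ψ : Module.End W.K (W.H Z)},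
    A ∈ Op (X.prod Z) → ψ ∈ Op Z → ∃ T ∈ Op X, ∀ f : W.H (X.prod X),
      str W (X.prod Z) (A * extOp W (W.corr f) ψ) = str W X (T * W.corr f)
  rank : ∀ {X : 𝒱.Obj} {s t : ℕ} {a b : X.Cycles}, X.IsCyc s a → X.IsCyc t b → s + t = X.dim →
    ∃ ψ ∈ Op X, ∀ x, ψ x = W.tr X (W.cl X b * x) • W.cl X a

variable {Op : ∀ X : 𝒱.Obj, Set (Module.End W.K (W.H X))}

/-- Contraction of diagonal operators. -/
lemma OpClass.ctr_mem (h : OpClass W Op) {c : ℕ → W.K} {ψ : Module.End W.K (W.H Z)}
    (hc : scal (W.isInternal (X.prod Z)) c ∈ Op (X.prod Z)) (hψ : ψ ∈ Op Z) :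
    scal (W.isInternal X) (ctr ψ c) ∈ Op X := by
  obtain ⟨T, hT, h1⟩ := h.contr hc hψ
  have h2 : T = scal (W.isInternal X) (ctr ψ c) := by
    apply eq_of_str
    intro f
    rw [← h1, str_scal]
  rwa [← h2]

/-- There are cycles of complementary dimensions with nonzero intersection numbers. -/
def Pairs (W : WeilCohomology.{u, v} ops) (X : 𝒱.Obj) : Prop :=
  ∀ s ≤ X.dim, ∃ a b : X.Cycles, X.IsCyc s a ∧ X.IsCyc (X.dim - s) b ∧
    W.tr X (W.cl X b * W.cl X a) ≠ 0

/-- Contraction with a pair of cycles. -/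
lemma OpClass.shift (h : OpClass W Op) (hZ : Pairs W Z) {c : ℕ → W.K}
    (hc : scal (W.isInternal (X.prod Z)) c ∈ Op (X.prod Z)) {s : ℕ} (hs : s ≤ Z.dim) :
    scal (W.isInternal X) (fun i => c (i + 2 * s)) ∈ Op X := by
  obtain ⟨a, b, ha, hb, hab⟩ := hZ s hs
  obtain ⟨ψ, hψ, h1⟩ := h.rank ha hb (by omega)
  have h2 := h.ctr_mem hc hψ
  have hcl := W.cl_mem ha
  have hψ2 : ψ = dualTensorHom W.K (W.H Z) (W.H Z)
      ((W.tr Z ∘ₗ LinearMap.mulLeft W.K (W.cl Z b)) ⊗ₜ W.cl Z a) := by
    apply LinearMap.ext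
    intro x
    rw [h1, dualTensorHom_apply]
    rfl
  have h3 : ∀ j, str W Z (proj (W.isInternal Z) j * ψ) =
      if j = 2 * s then W.tr Z (W.cl Z b * W.cl Z a) else 0 := by
    intro j
    have e1 : par (W.isInternal Z) * (proj (W.isInternal Z) j * ψ) =
        dualTensorHom W.K (W.H Z) (W.H Z)
          ((W.tr Z ∘ₗ LinearMap.mulLeft W.K (W.cl Z b)) ⊗ₜ
            (if j = 2 * s then W.cl Z a else 0)) := by
      apply LinearMap.ext
      intro x
      rw [Module.End.mul_apply, Module.End.mul_apply, h1, dualTensorHom_apply, map_smul, map_smul]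
      split_ifs with hj
      · subst hj
        rw [proj_same _ hcl, par, scal_apply _ _ hcl, pow_mul]
        simp
      · rw [proj_ne _ hcl (Ne.symm hj), map_zero, smul_zero, smul_zero]
    rw [str_apply, e1, LinearMap.trace_eq_contract_apply, contractLeft_apply]
    split_ifs with hj
    · rfl
    · rw [map_zero]
  have h4 : ctr ψ c = fun i => c (i + 2 * s) * W.tr Z (W.cl Z b * W.cl Z a) := by
    funext i
    rw [ctr, Finset.sum_eq_single_of_mem (2 * s) (mem_range.2 (by omega))]
    · rw [h3, if_pos rfl]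
    · intro j _ hj
      rw [h3, if_neg hj, mul_zero]
  -- the intersection number is rational
  have hrat : W.tr Z (W.cl Z b * W.cl Z a) =
      ((Z.V.degCycle (ops.mul b a) : ℚ) : W.K) := by
    rw [← W.cl_mul]
    have hz : Z.IsCyc Z.dim (ops.mul b a) := by
      have := ops.mul_mem hb ha
      rwa [show Z.dim - s + s = Z.dim by omega] at this
    exact W.tr_cl hz
  rw [h4] at h2
  have h5 := h.smul (Z.V.degCycle (ops.mul b a) : ℚ)⁻¹ h2
  have h6 : ((((Z.V.degCycle (ops.mul b a) : ℚ)⁻¹ : ℚ) : W.K)) •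
      scal (W.isInternal X) (fun i => c (i + 2 * s) * W.tr Z (W.cl Z b * W.cl Z a)) =
      scal (W.isInternal X) (fun i => c (i + 2 * s)) := by
    apply gr_ext (W.isInternal X)
    intro i x hx
    rw [LinearMap.smul_apply, scal_apply _ _ hx, scal_apply _ _ hx, smul_smul]
    congr 1
    rw [hrat] at hab ⊢
    push_cast
    field_simp
  rwa [h6] at h5

lemma str_proj (j : ℕ) : str W Z (proj (W.isInternal Z) j * 1) =
    (-1 : W.K) ^ j * (W.betti Z j : W.K) := by
  have e1 : par (W.isInternal Z) * (proj (W.isInternal Z) j * 1) =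
      (-1 : W.K) ^ j • proj (W.isInternal Z) j := by
    apply gr_ext (W.isInternal Z)
    intro i x hx
    rw [mul_one, Module.End.mul_apply, LinearMap.smul_apply]
    by_cases hij : i = j
    · subst hij
      rw [proj_same _ hx, par, scal_apply _ _ hx]
    · rw [proj_ne _ hx hij, map_zero, smul_zero]
  rw [str_apply, e1, map_smul, trace_proj, smul_eq_mul]
  rfl

/-- Contraction with the diagonal. -/
lemma OpClass.euler (h : OpClass W Op) {c : ℕ → W.K}
    (hc : scal (W.isInternal (X.prod Z)) c ∈ Op (X.prod Z)) :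
    scal (W.isInternal X) (fun i => ∑ j ∈ range (2 * Z.dim + 1),
      c (i + j) * ((-1 : W.K) ^ j * (W.betti Z j : W.K))) ∈ Op X := by
  have h1 := h.ctr_mem hc (h.one Z)
  have h2 : ctr (1 : Module.End W.K (W.H Z)) c = fun i => ∑ j ∈ range (2 * Z.dim + 1),
      c (i + j) * ((-1 : W.K) ^ j * (W.betti Z j : W.K)) := by
    funext i
    rw [ctr]
    exact Finset.sum_congr rfl fun j _ => by rw [str_proj]
  rwa [h2] at h1

end Pool.Agent.N103.OC
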