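import Pool.Agent.N103.OC.Base

/-!
# One Kunneth component of a power
-/

set_option autoImplicit false

open CategoryTheory AlgebraicGeometry Finset TensorProduct

universe u v

namespace Pool.Agent.N103.OC

open Pool.Agent.H914 VarClass Obj WeilCohomology Pool.Agent.N190.CB

lemma rat_neg_one_smul {K V : Type*} [Field K] [CharZero K] [AddCommGroup V] [Module K V] (z : V) :
    (((-1 : ℚ) : K)) • z = -z := by simp

variable {k : Type u} [Field k] {𝒱 : VarClass k} {ops : CycleOps 𝒱}
  {W : WeilCohomology.{u, v} ops} {X Y Z : 𝒱.Obj} {Op : ∀ X : 𝒱.Obj, Set (Module.End W.K (W.H X))}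

lemma OpClass.zero (h : OpClass W Op) (X : 𝒱.Obj) : (0 : Module.End W.K (W.H X)) ∈ Op X := by
  have := h.smul (X := X) 0 (h.one X)
  rwa [Rat.cast_zero, zero_smul] at this

lemma OpClass.sum (h : OpClass W Op) {ι : Type} {s : Finset ι} {y : ι → Module.End W.K (W.H X)}
    (hy : ∀ i ∈ s, y i ∈ Op X) : ∑ i ∈ s, y i ∈ Op X := by
  classical
  induction s using Finset.induction_on with
  | empty => rw [Finset.sum_empty]; exact h.zero X
  | insert a s ha ih =>
    rw [Finset.sum_insert ha]
    exact h.add (hy a (by simp)) (ih (fun i hi => hy i (by simp [hi])))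

lemma OpClass.sub (h : OpClass W Op) {y z : Module.End W.K (W.H X)} (hy : y ∈ Op X)
    (hz : z ∈ Op X) : y - z ∈ Op X := by
  have := h.add hy (h.smul (-1) hz)
  have e1 : (((-1 : ℚ) : W.K)) • z = -z := rat_neg_one_smul z
  rwa [e1, ← sub_eq_add_neg] at this

lemma proj_zero_of_bot {i : ℕ} (hi : W.gr X i = ⊥) : proj (W.isInternal X) i = 0 := by
  apply LinearMap.ext
  intro x
  have := proj_mem (W.isInternal X) i x
  rw [hi, Submodule.mem_bot] at this
  rw [this, LinearMap.zero_apply]

lemma shift_delta {m s : ℕ} (hs : 2 * s ≤ m) :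
    scal (W.isInternal X) (fun i => if i + 2 * s = m then (1 : W.K) else 0) =
      proj (W.isInternal X) (m - 2 * s) := by
  rw [proj]
  congr 1
  funext i
  by_cases hi : i + 2 * s = m
  · rw [if_pos hi, if_pos (by omega)]
  · rw [if_neg hi, if_neg (by omega)]

/-- Diagonal operators from the projectors. -/
lemma OpClass.scal_mem (h : OpClass W Op) (hX : ∀ i, proj (W.isInternal X) i ∈ Op X) (c : ℕ → ℚ) :
    scal (W.isInternal X) (fun i => (c i : W.K)) ∈ Op X := by
  rw [scal_eq_sum (W.isInternal X) W_hbd]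
  exact h.sum fun i _ => h.smul _ (hX i)

/-- The projectors of a product. -/
lemma OpClass.proj_prod (h : OpClass W Op) (hX : ∀ i, proj (W.isInternal X) i ∈ Op X)
    (hZ : ∀ i, proj (W.isInternal Z) i ∈ Op Z) (m : ℕ) :
    proj (W.isInternal (X.prod Z)) m ∈ Op (X.prod Z) := by
  rw [proj, scal_prod]
  refine h.sum fun i _ => h.sum fun j _ => ?_
  split_ifs
  · rw [one_smul]
    exact h.ext (hX i) (hZ j)
  · rw [zero_smul]
    exact h.zero _

/-- The components in the degrees of the same parity. -/
lemma OpClass.stepP (h : OpClass W Op) (hX : Pairs W X) {m e : ℕ}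
    (H : ∀ s ≤ e, 2 * s ≤ m → proj (W.isInternal (X.prod X)) (m - 2 * s) ∈ Op (X.prod X))
    {i r : ℕ} (hi : m = i + 2 * r) (hr : r ≤ e + X.dim) : proj (W.isInternal X) i ∈ Op X := by
  obtain ⟨s, s', hs, hs', hss⟩ : ∃ s s', s ≤ e ∧ s' ≤ X.dim ∧ s + s' = r := by
    by_cases hre : r ≤ e
    · exact ⟨r, 0, hre, Nat.zero_le _, rfl⟩
    · exact ⟨e, r - e, le_rfl, by omega, by omega⟩
  have h1 := h.shift hX (H s hs (by omega)) hs'
  rw [shift_delta (by omega), show m - 2 * s - 2 * s' = i by omega] at h1
  exact h1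

/-- The Betti numbers in the smallest odd degree. -/
lemma dual_ne_bot {j : ℕ} (hj : W.gr X j ≠ ⊥) : j ≤ 2 * X.dim ∧ W.gr X (2 * X.dim - j) ≠ ⊥ := by
  have hle : j ≤ 2 * X.dim := by
    by_contra hcon
    exact hj (W.gr_eq_bot X j (by omega))
  refine ⟨hle, fun hbot => hj ?_⟩
  rw [eq_bot_iff]
  intro a ha
  rw [Submodule.mem_bot]
  apply W.nondeg
  intro b
  refine gr_induction (W.isInternal X) (p := fun b => W.tr X (a * b) = 0) ?_ ?_ b
  · intro i b hb
    by_cases hi : j + i = 2 * X.dim
    · rw [show i = 2 * X.dim - j by omega, hbot, Submodule.mem_bot] at hb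
      rw [hb, mul_zero, map_zero]
    · exact W.tr_eq_zero (W.mul_mem ha hb) hi
  · intro b b' hb hb'
    rw [mul_add, map_add, hb, hb', add_zero]

lemma betti_eq_zero_iff {i : ℕ} : W.betti X i = 0 ↔ W.gr X i = ⊥ :=
  Submodule.finrank_eq_zero

/-- The components in the degrees of the other parity. -/
lemma OpClass.stepQ (h : OpClass W Op) (hX : Pairs W X) {m e j : ℕ} (hj : Odd j)
    (hjb : W.gr X j ≠ ⊥) (hmin : ∀ l < j, Odd l → W.gr X l = ⊥) (hlow : 2 * X.dim + j ≤ m)
    (hup : m ≤ 2 * e + j)
    (H : ∀ s ≤ e, 2 * s ≤ m → proj (W.isInternal (X.prod X)) (m - 2 * s) ∈ Op (X.prod X)) (i : ℕ)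
    (hi : i ≤ 2 * X.dim) (hpar : (m + i) % 2 = 1) : proj (W.isInternal X) i ∈ Op X := by
  have hjd := (dual_ne_bot hjb).1
  have hj2 : j % 2 = 1 := Nat.odd_iff.1 hj
  induction i using Nat.strong_induction_on with
  | _ i ih =>
  -- the contraction with the diagonal
  obtain ⟨s, hs⟩ : ∃ s, m = i + j + 2 * s := ⟨(m - (i + j)) / 2, by omega⟩
  have h1 := H s (by omega) (by omega)
  rw [show m - 2 * s = i + j by omega] at h1
  have h2 := h.euler h1
  -- the projector on the degrees of the parity of `i`
  have h3 : scal (W.isInternal X) (fun l => if (m + l) % 2 = 1 then (1 : W.K) else 0) ∈ Op X := by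
    have e1 : scal (W.isInternal X) (fun l => if (m + l) % 2 = 1 then (1 : W.K) else 0) =
        1 - ∑ l ∈ range (2 * X.dim + 1), if (m + l) % 2 = 1 then 0 else
          proj (W.isInternal X) l := by
      rw [← sum_proj (W.isInternal X) W_hbd, ← Finset.sum_sub_distrib,
        scal_eq_sum (W.isInternal X) W_hbd]
      refine Finset.sum_congr rfl fun l _ => ?_
      split_ifs
      · rw [one_smul, sub_zero]
      · rw [zero_smul, sub_self]
    rw [e1]
    refine h.sub (h.one X) (h.sum fun l hl => ?_)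
    rw [mem_range] at hl
    split_ifs with hp
    · exact h.zero X
    · exact h.stepP hX H (i := l) (r := (m - l) / 2) (by omega) (by omega)
  have h4 := h.mul h3 h2
  rw [scal_mul] at h4
  -- the values
  set g : ℕ → W.K := fun l => (if (m + l) % 2 = 1 then (1 : W.K) else 0) *
    ∑ j' ∈ range (2 * X.dim + 1), (if l + j' = i + j then (1 : W.K) else 0) *
      ((-1 : W.K) ^ j' * (W.betti X j' : W.K)) with hg
  have hval : ∀ l, l ≤ i + j → i + j - l ≤ 2 * X.dim → (m + l) % 2 = 1 →
      g l = ((-(W.betti X (i + j - l) : ℚ) : ℚ) : W.K) := by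
    intro l hl hl' hpl
    rw [hg]
    dsimp only
    rw [if_pos hpl, one_mul, Finset.sum_eq_single_of_mem (i + j - l) (mem_range.2 (by omega))]
    · rw [if_pos (by omega), one_mul, Odd.neg_one_pow (Nat.odd_iff.2 (by omega))]
      push_cast
      ring
    · intro j' _ hj'
      rw [if_neg (by omega), zero_mul]
  have hval0 : ∀ l, (l > i + j ∨ i + j - l > 2 * X.dim ∨ (m + l) % 2 ≠ 1) → g l = 0 := by
    intro l hl
    rw [hg]
    dsimp only
    rcases hl with hl | hl | hl
    · rw [Finset.sum_eq_zero, mul_zero]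
      intro j' _
      rw [if_neg (by omega), zero_mul]
    · rw [Finset.sum_eq_zero, mul_zero]
      intro j' hj'
      rw [mem_range] at hj'
      rw [if_neg (by omega), zero_mul]
    · rw [if_neg hl, zero_mul]
  have hgi : g i = ((-(W.betti X j : ℚ) : ℚ) : W.K) := by
    have := hval i (by omega) (by omega) hpar
    rwa [show i + j - i = j by omega] at this
  have hbj : (W.betti X j : ℚ) ≠ 0 := by
    intro h0
    exact hjb (betti_eq_zero_iff.1 (by exact_mod_cast h0))
  -- subtract the smaller degrees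
  have h5 : ∑ l ∈ range i, g l • proj (W.isInternal X) l ∈ Op X := by
    refine h.sum fun l hl => ?_
    rw [mem_range] at hl
    by_cases hp : (m + l) % 2 = 1
    · by_cases hl' : i + j - l ≤ 2 * X.dim
      · rw [hval l (by omega) hl' hp]
        exact h.smul _ (ih l hl (by omega) hp)
      · rw [hval0 l (Or.inr (Or.inl (by omega))), zero_smul]
        exact h.zero X
    · rw [hval0 l (Or.inr (Or.inr hp)), zero_smul]
      exact h.zero X
  have h6 := h.sub h4 h5
  have h7 : scal (W.isInternal X) g - ∑ l ∈ range i, g l • proj (W.isInternal X) l =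
      ((-(W.betti X j : ℚ) : ℚ) : W.K) • proj (W.isInternal X) i := by
    have e1 : ∑ l ∈ range (2 * X.dim + 1), g l • proj (W.isInternal X) l =
        ∑ l ∈ range (i + 1), g l • proj (W.isInternal X) l := by
      symm
      apply Finset.sum_subset
      · intro l hl
        rw [mem_range] at *
        omega
      · intro l hl hl'
        rw [mem_range] at *
        by_cases hp : (m + l) % 2 = 1
        · by_cases hlt : l ≤ i + j
          · by_cases hl'' : i + j - l ≤ 2 * X.dim
            · have hb : W.gr X (i + j - l) = ⊥ :=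
                hmin _ (by omega) (Nat.odd_iff.2 (by omega))
              rw [hval l hlt hl'' hp, betti_eq_zero_iff.2 hb]
              simp
            · rw [hval0 l (Or.inr (Or.inl (by omega))), zero_smul]
          · rw [hval0 l (Or.inl (by omega)), zero_smul]
        · rw [hval0 l (Or.inr (Or.inr hp)), zero_smul]
    rw [scal_eq_sum (W.isInternal X) W_hbd, e1, Finset.sum_range_succ, add_sub_cancel_left, hgi]
  rw [h7] at h6
  have h8 := h.smul (-(W.betti X j : ℚ))⁻¹ h6
  rwa [smul_smul, ← Rat.cast_mul, inv_mul_cancel₀ (neg_ne_zero.2 hbj), Rat.cast_one,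
    one_smul] at h8

/-- **From the square to the variety.** -/
theorem OpClass.square (h : OpClass W Op) (hX : Pairs W X) {m e : ℕ} (hlow : 3 * X.dim ≤ m)
    (hup : m ≤ 2 * e + 1) (hodd : Even m ∨ ∃ j, Odd j ∧ W.gr X j ≠ ⊥)
    (H : ∀ s ≤ e, 2 * s ≤ m → proj (W.isInternal (X.prod X)) (m - 2 * s) ∈ Op (X.prod X))
    (i : ℕ) : proj (W.isInternal X) i ∈ Op X := by
  classical
  by_cases hi : 2 * X.dim < i
  · rw [proj_zero_of_bot (W.gr_eq_bot X i hi)]
    exact h.zero X
  by_cases hpar : (m + i) % 2 = 1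
  swap
  · exact h.stepP hX H (i := i) (r := (m - i) / 2) (by omega) (by omega)
  by_cases hex : ∃ j, Odd j ∧ W.gr X j ≠ ⊥
  · set j := Nat.find hex with hj
    have hj1 := Nat.find_spec hex
    have hmin : ∀ l < j, Odd l → W.gr X l = ⊥ := by
      intro l hl hl'
      by_contra hcon
      exact Nat.find_min hex hl ⟨hl', hcon⟩
    have hd := dual_ne_bot hj1.2
    have hjd : j ≤ X.dim := by
      by_contra hcon
      refine hd.2 (hmin _ (by omega) ?_)
      have := hj1.1
      rw [Nat.odd_iff] at this ⊢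
      omega
    have hj0 : 1 ≤ j := by
      have := hj1.1
      rw [Nat.odd_iff] at this
      omega
    exact h.stepQ hX hj1.1 hj1.2 hmin (by omega) (by omega) H i (by omega) hpar
  · have hm : Even m := hodd.resolve_right hex
    have hi' : Odd i := by
      rw [Nat.even_iff] at hm
      rw [Nat.odd_iff]
      omega
    rw [proj_zero_of_bot (by
      by_contra hcon
      exact hex ⟨i, hi', hcon⟩)]
    exact h.zero X

end Pool.Agent.N103.OC
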