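import Pool.Agent.N103.OC.Core
import Pool.Agent.N103.OC.Defs

/-!
# One Kunneth component of a power: main theorems
-/

set_option autoImplicit false

open CategoryTheory AlgebraicGeometry Finset TensorProduct

universe u v

namespace Pool.Agent.N103.OC

open Pool.Agent.H914 VarClass Obj WeilCohomology Pool.Agent.N190.CB

variable {k : Type u} [Field k] {𝒱 : VarClass k} {ops : CycleOps 𝒱}
  {W : WeilCohomology.{u, v} ops} {X Y Z : 𝒱.Obj} {Op : ∀ X : 𝒱.Obj, Set (Module.End W.K (W.H X))}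

lemma pairs_of_dual (h : DualCycles ops X) : Pairs W X := by
  intro s hs
  obtain ⟨a, b, ha, hb, hab⟩ := h s hs
  refine ⟨a, b, ha, hb, ?_⟩
  have hz : X.IsCyc X.dim (ops.mul b a) := by
    have := ops.mul_mem hb ha
    rwa [show X.dim - s + s = X.dim by omega] at this
  rw [← W.cl_mul, W.tr_cl hz]
  exact_mod_cast hab

/-- From the power to the square. -/
lemma OpClass.pw_shift (h : OpClass W Op) (hX : Pairs W X) (n : ℕ) : ∀ c : ℕ → W.K,
    scal (W.isInternal (pw X (n + 2))) c ∈ Op (pw X (n + 2)) → ∀ s ≤ n * X.dim,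
      scal (W.isInternal (X.prod X)) (fun i => c (i + 2 * s)) ∈ Op (X.prod X) := by
  induction n with
  | zero =>
    intro c hc s hs
    rw [zero_mul, Nat.le_zero] at hs
    subst hs
    exact hc
  | succ n ih =>
    intro c hc s hs
    rw [Nat.succ_mul] at hs
    obtain ⟨s1, s2, h1, h2, h3⟩ : ∃ s1 s2, s1 ≤ n * X.dim ∧ s2 ≤ X.dim ∧ s1 + s2 = s := by
      by_cases hle : s ≤ n * X.dim
      · exact ⟨s, 0, hle, Nat.zero_le _, rfl⟩
      · exact ⟨n * X.dim, s - n * X.dim, le_rfl, by omega, by omega⟩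
    have h4 : scal (W.isInternal (pw X (n + 2))) (fun i => c (i + 2 * s2)) ∈ Op (pw X (n + 2)) :=
      h.shift (X := pw X (n + 2)) hX hc h2
    have h5 := ih _ h4 s1 h1
    rw [← h3]
    have e1 : (fun i => c (i + 2 * s1 + 2 * s2)) = fun i => c (i + 2 * (s1 + s2)) := by
      funext i
      congr 1
      ring
    rwa [← e1]

/-- The components of the powers. -/
lemma OpClass.pw_proj (h : OpClass W Op) (hX : ∀ i, proj (W.isInternal X) i ∈ Op X) (n : ℕ) :
    ∀ m, proj (W.isInternal (pw X (n + 1))) m ∈ Op (pw X (n + 1)) := by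
  induction n with
  | zero => exact hX
  | succ n ih => exact fun m => h.proj_prod (X := pw X (n + 1)) ih hX m

lemma pw_dim (X : 𝒱.Obj) (n : ℕ) : (pw X (n + 1)).dim = (n + 1) * X.dim := by
  induction n with
  | zero => exact (one_mul _).symm
  | succ n ih =>
    change (pw X (n + 1)).dim + X.dim = _
    rw [ih]
    ring

/-- **One component of one power.** -/
theorem OpClass.one_component (h : OpClass W Op) (hX : Pairs W X) {n m : ℕ} (hn : 4 ≤ n)
    (hlow : 3 * X.dim ≤ m) (hup : m ≤ 2 * (n - 2) * X.dim + 1)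
    (hodd : Even m ∨ ∃ j, Odd j ∧ W.gr X j ≠ ⊥) :
    (∀ i, proj (W.isInternal X) i ∈ Op X) ↔ proj (W.isInternal (pw X n)) m ∈ Op (pw X n) := by
  obtain ⟨r, rfl⟩ : ∃ r, n = r + 2 := ⟨n - 2, by omega⟩
  constructor
  · intro h1
    exact h.pw_proj h1 (r + 1) m
  · intro h1
    refine h.square hX (m := m) (e := r * X.dim) hlow ?_ hodd ?_
    · rw [Nat.add_sub_cancel] at hup
      rw [← mul_assoc]
      exact hup
    · intro s hs hsm
      have h2 := h.pw_shift hX r _ h1 s hs
      rwa [shift_delta hsm] at h2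

/-- The Betti numbers of a product. -/
lemma prod_ne_bot {i j : ℕ} (hi : W.gr X i ≠ ⊥) (hj : W.gr Z j ≠ ⊥) :
    W.gr (X.prod Z) (i + j) ≠ ⊥ := by
  intro hbot
  obtain ⟨a, ha, ha0⟩ := (Submodule.ne_bot_iff _).1 hi
  obtain ⟨b, hb, hb0⟩ := (Submodule.ne_bot_iff _).1 hj
  have h1 : W.map (fst X Z) a * W.map (snd X Z) b = 0 := by
    have h2 := W.mul_mem (W.map_mem (fst X Z) ha) (W.map_mem (snd X Z) hb)
    rw [hbot, Submodule.mem_bot] at h2
    exact h2
  rw [← kappa_tmul, LinearEquiv.map_eq_zero_iff] at h1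
  obtain ⟨f, hf⟩ : ∃ f : Module.Dual W.K (W.H X), f a ≠ 0 := by
    by_contra hcon
    push Not at hcon
    exact ha0 ((Module.forall_dual_apply_eq_zero_iff W.K _).1 hcon)
  obtain ⟨g, hg⟩ : ∃ g : Module.Dual W.K (W.H Z), g b ≠ 0 := by
    by_contra hcon
    push Not at hcon
    exact hb0 ((Module.forall_dual_apply_eq_zero_iff W.K _).1 hcon)
  have h2 := congrArg (TensorProduct.lift ((LinearMap.mul W.K W.K).compl₁₂ f g)) h1
  rw [TensorProduct.lift.tmul, LinearMap.compl₁₂_apply, LinearMap.mul_apply', map_zero] at h2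
  exact (mul_ne_zero hf hg) h2

lemma isProjector_iff {i : ℕ} {P : Module.End W.K (W.H X)} :
    IsProjector (W.gr X) i P ↔ P = proj (W.isInternal X) i := by
  constructor
  · intro h
    apply gr_ext (W.isInternal X)
    intro j a ha
    rw [h j a ha]
    split_ifs with hij
    · subst hij
      exact (proj_same _ ha).symm
    · exact (proj_ne _ ha hij).symm
  · rintro rfl j a ha
    split_ifs with hij
    · subst hij
      exact proj_same _ ha
    · exact proj_ne _ ha hij

/-- The operators of rank one of a pair of cycles. -/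
lemma corr_pair {s : ℕ} {a : X.Cycles} (ha : X.IsCyc s a) (b : X.Cycles) (x : W.H X) :
    W.corr (W.cl _ (ops.mul (ops.pull (fst X X) b) (ops.pull (snd X X) a))) x =
      W.tr X (W.cl X b * x) • W.cl X a := by
  rw [corr_apply, W.cl_mul, W.cl_pull, W.cl_pull, mul_assoc,
    W.even_comm (W.map_mem (snd X X) (W.cl_mem ha)), ← mul_assoc, ← map_mul, push_snd]

lemma spanComponent_iff (i : ℕ) :
    SpanComponent W X i ↔ proj (W.isInternal X) i ∈ (KOp W X X 0 : Set (Module.End W.K (W.H X))) := by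
  have e1 : KOp W X X 0 = Submodule.span W.K {φ : W.H X →ₗ[W.K] W.H X |
      ∃ z, (X.prod X).IsCyc X.dim z ∧ W.corr (W.cl (X.prod X) z) = φ} := by
    rw [KOp]
    congr 1
    ext φ
    constructor
    · rintro ⟨p, hp, z, hz, rfl⟩
      obtain rfl : p = X.dim := by omega
      exact ⟨z, hz, rfl⟩
    · rintro ⟨z, hz, rfl⟩
      exact ⟨X.dim, by simp, z, hz, rfl⟩
  rw [SpanComponent, CombinationIsProjector, ← e1]
  constructor
  · rintro ⟨P, hP, hP'⟩
    rw [isProjector_iff] at hP'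
    rw [← hP']
    exact hP
  · intro h
    exact ⟨_, h, isProjector_iff.2 rfl⟩

/-- the operators induced by cycles with rational coefficients -/
def ratOp (W : WeilCohomology.{u, v} ops) (X : 𝒱.Obj) : Set (Module.End W.K (W.H X)) :=
  {φ | ∃ z, (X.prod X).IsCyc X.dim z ∧ W.corr (W.cl (X.prod X) z) = φ}

lemma mem_ratOp {y : Module.End W.K (W.H X)} : y ∈ ratOp W X ↔ ROp W X 0 y :=
  ⟨fun ⟨_, hz, hy⟩ => hy ▸ rop_of_cyc hz, fun h => cyc_of_rop h⟩

lemma rationalComponent_iff (i : ℕ) :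
    RationalComponent W X i ↔ proj (W.isInternal X) i ∈ ratOp W X := by
  constructor
  · rintro ⟨z, hz, h⟩
    exact ⟨z, hz, isProjector_iff.1 h⟩
  · rintro ⟨z, hz, h⟩
    exact ⟨z, hz, isProjector_iff.2 h⟩

/-- The linear combinations of the algebraic operators. -/
lemma kop_class (W : WeilCohomology.{u, v} ops) :
    OpClass W (fun X => (KOp W X X 0 : Set (Module.End W.K (W.H X)))) where
  one X := KOp.id X
  add hy hz := Submodule.add_mem _ hy hz
  smul q _ hy := Submodule.smul_mem _ _ hy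
  mul hy hz := KOp.cast (KOp.comp hy hz) (by ring)
  ext hφ hψ := KOp.cast (KOp.ext hφ hψ) (by ring)
  contr hA hψ := by
    obtain ⟨T, hT, h⟩ := exists_ptrace hA hψ
    exact ⟨T, KOp.cast hT (by ring), h⟩
  rank {X s t a b} ha hb hst := by
    have hcyc := ops.mul_mem (ops.pull_mem (fst X X) hb) (ops.pull_mem (snd X X) ha)
    rw [show t + s = X.dim by omega] at hcyc
    exact ⟨_, KOp.gen (by simp) hcyc, corr_pair ha b⟩

/-- The operators induced by cycles with rational coefficients. -/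
lemma rat_class (W : WeilCohomology.{u, v} ops) : OpClass W (ratOp W) where
  one X := mem_ratOp.2 rop_opAlg.one
  add hy hz := mem_ratOp.2 (rop_opAlg.add (mem_ratOp.1 hy) (mem_ratOp.1 hz))
  smul q _ hy := mem_ratOp.2 (rop_opAlg.smul q (mem_ratOp.1 hy))
  mul hy hz := mem_ratOp.2 (rop_mul0 (mem_ratOp.1 hy) (mem_ratOp.1 hz))
  ext {Y Z φ ψ} hφ hψ := by
    obtain ⟨z, hz, rfl⟩ := hφ
    obtain ⟨w, hw, rfl⟩ := hψ
    refine ⟨_, ops.mul_mem (ops.pull_mem (q1 Y Z) hz) (ops.pull_mem (q2 Y Z) hw), ?_⟩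
    apply ext_kunneth_lin
    intro a b
    rw [extOp_tmul, W.cl_mul, W.cl_pull, W.cl_pull, corr_ext _ (W.cl_mem hw)]
  contr {X Z A ψ} hA hψ := by
    obtain ⟨z, hz, rfl⟩ := hA
    obtain ⟨w, hw, rfl⟩ := hψ
    have hcyc : ((X.prod Z).prod (X.prod Z)).IsCyc ((X.prod Z).dim + Z.dim)
        (ops.mul z (ops.pull (q2 X Z) (ops.pull (swap Z Z) w))) :=
      ops.mul_mem hz (ops.pull_mem _ (ops.pull_mem _ hw))
    have hpush := ops.push_mem (q1 X Z) (q := X.dim) hcyc
      (by simp only [dim_prod]; omega)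
    refine ⟨_, ⟨_, hpush, rfl⟩, fun f => ?_⟩
    rw [W.cl_push, W.cl_mul, W.cl_pull, W.cl_pull]
    exact str_ext_left (W.cl_mem hz) f (W.cl_mem hw) (m := X.dim) (by simp only [dim_prod]; omega)
  rank {X s t a b} ha hb hst := by
    have hcyc := ops.mul_mem (ops.pull_mem (fst X X) hb) (ops.pull_mem (snd X X) ha)
    rw [show t + s = X.dim by omega] at hcyc
    exact ⟨_, ⟨_, hcyc, rfl⟩, corr_pair ha b⟩

/-- The middle components of all varieties of large dimensions. -/
theorem OpClass.middle (h : OpClass W Op) (hP : ∀ X : 𝒱.Obj, Pairs W X) {E : 𝒱.Obj}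
    (hE : E.dim = 1) (hE1 : W.gr E 1 ≠ ⊥)
    (hmid : ∀ n₀, ∃ n ≥ n₀, ∀ V : 𝒱.Obj, V.dim = n → proj (W.isInternal V) n ∈ Op V)
    (X : 𝒱.Obj) (i : ℕ) : proj (W.isInternal X) i ∈ Op X := by
  -- replace `X` by `X × E`
  have key : ∀ Y : 𝒱.Obj, (∃ j, Odd j ∧ W.gr Y j ≠ ⊥) → ∀ i, proj (W.isInternal Y) i ∈ Op Y := by
    intro Y hY
    obtain ⟨n, hn, hV⟩ := hmid (4 * Y.dim + 1)
    obtain ⟨e, he⟩ : ∃ e, n = 2 * Y.dim + (e + 1) := ⟨n - 2 * Y.dim - 1, by omega⟩
    have hdim : (pw E (e + 1)).dim = e + 1 := by rw [pw_dim, hE, mul_one]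
    have h1 := hV ((Y.prod Y).prod (pw E (e + 1))) (by
      rw [dim_prod, dim_prod, hdim]
      omega)
    refine h.square (hP Y) (m := n) (e := e + 1) (by omega) (by omega) (Or.inr hY) ?_
    intro s hs hsm
    have h2 := h.shift (hP _) h1 (s := s) (by omega)
    rwa [shift_delta hsm] at h2
  have h0 : W.gr X 0 ≠ ⊥ := by
    intro hbot
    have h1 := W.one_mem X
    rw [hbot, Submodule.mem_bot] at h1
    have h2 := W.one_mem E
    have hE0 : W.gr E 1 = ⊥ := by
      have h3 : W.tr X 1 = 0 := by rw [h1, map_zero]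
      have h4 : ∀ a ∈ W.gr E 1, a = 0 := by
        intro a _
        have h5 := W.push_snd (X := X) (Y := E) 1 a
        obtain ⟨c, d, hc, hd, hcd⟩ := hP X 0 (Nat.zero_le _)
        exfalso
        apply hcd
        have h6 : (W.cl X d * W.cl X c) = 0 := by
          rw [← mul_one (W.cl X d * W.cl X c), h1, mul_zero]
        rw [h6, map_zero]
      exact (Submodule.eq_bot_iff _).2 h4
    exact hE1 hE0
  have h1 := key (X.prod E) ⟨0 + 1, by decide, prod_ne_bot h0 hE1⟩ i
  have h2 := h.shift (hP E) h1 (s := 0) (Nat.zero_le _)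
  rwa [shift_delta (Nat.zero_le _)] at h2

end Pool.Agent.N103.OC
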